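import Mathlib

set_option autoImplicit false

namespace Pool.Agent.H71

open MvPolynomial

theorem injective_of_surjective_noeth {R : Type*} [CommRing R] [IsNoetherianRing R] (f : R →+* R)
    (hf : Function.Surjective f) : Function.Injective f := by
  have hmono : Monotone fun n : ℕ => RingHom.ker (f ^ n) := by
    apply monotone_nat_of_le_succ
    intro n x hx
    rw [RingHom.mem_ker] at hx ⊢
    rw [pow_succ', RingHom.mul_def, RingHom.comp_apply, hx, map_zero]
  obtain ⟨n, hn⟩ := monotone_stabilizes_iff_noetherian.mpr
    (inferInstance : IsNoetherian R R) ⟨fun n : ℕ => RingHom.ker (f ^ n), hmono⟩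
  have hsurj : Function.Surjective (f ^ n) := by
    clear hn
    induction n with
    | zero => intro x; exact ⟨x, rfl⟩
    | succ n ih =>
      rw [pow_succ', RingHom.mul_def]
      exact hf.comp ih
  rw [injective_iff_map_eq_zero]
  intro x hx
  obtain ⟨y, rfl⟩ := hsurj x
  have h1 : y ∈ RingHom.ker (f ^ (n + 1)) := by
    rw [RingHom.mem_ker, pow_succ', RingHom.mul_def, RingHom.comp_apply, hx]
  have h2 := hn (n + 1) (Nat.le_succ n)
  simp only [OrderHom.coe_mk] at h2
  rw [← h2] at h1
  exact (RingHom.mem_ker).1 h1

variable {P : Type} [Field P] {σ : Type}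

/-- Two substitutions agree modulo the ideal generated by the differences. -/
theorem aeval_sub_aeval_mem {A : Type*} [CommRing A] [Algebra P A] (w v : σ → A)
    (h : MvPolynomial σ P) :
    aeval w h - aeval v h ∈ Ideal.span (Set.range fun i => w i - v i) := by
  induction h using MvPolynomial.induction_on with
  | C a => simp
  | add p q hp hq =>
    have : aeval w (p + q) - aeval v (p + q) = (aeval w p - aeval v p) + (aeval w q - aeval v q) := by
      simp; ring
    rw [this]
    exact Ideal.add_mem _ hp hq
  | mul_X p i hp =>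
    have : aeval w (p * X i) - aeval v (p * X i) =
        w i * (aeval w p - aeval v p) + aeval v p * (w i - v i) := by
      simp; ring
    rw [this]
    refine Ideal.add_mem _ (Ideal.mul_mem_left _ _ hp) (Ideal.mul_mem_left _ _ ?_)
    exact Ideal.subset_span ⟨i, rfl⟩

/-- A surjective endomorphism of a polynomial ring is an automorphism. -/
theorem exists_equiv_of_hom [Finite σ] (z : σ → MvPolynomial σ P)
    (φ : MvPolynomial σ P →ₐ[P] MvPolynomial σ P) (hφ : ∀ i, φ (z i) = X i) :
    ∃ e : MvPolynomial σ P ≃ₐ[P] MvPolynomial σ P, ∀ i, e (X i) = z i := by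
  have hsurj : Function.Surjective φ := by
    intro p
    refine ⟨aeval z p, ?_⟩
    have : (φ.comp (aeval z)) = AlgHom.id P _ := by
      apply MvPolynomial.algHom_ext
      intro i
      simp [hφ]
    have := congrArg (fun f => f p) this
    simpa using this
  have hinj : Function.Injective φ :=
    injective_of_surjective_noeth (φ : MvPolynomial σ P →+* MvPolynomial σ P) hsurj
  let e := AlgEquiv.ofBijective φ ⟨hinj, hsurj⟩
  refine ⟨e.symm, fun i => ?_⟩
  rw [AlgEquiv.symm_apply_eq]
  exact (hφ i).symm

/-- Being a constant polynomial. -/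
def IsC (p : MvPolynomial σ P) : Prop := ∃ c : P, p = C c

theorem isC_iff (p : MvPolynomial σ P) : IsC p ↔ p = 0 ∨ IsUnit p := by
  constructor
  · rintro ⟨c, rfl⟩
    by_cases hc : c = 0
    · left; simp [hc]
    · right
      exact (isUnit_iff_ne_zero.2 hc).map C
  · rintro (h | h)
    · exact ⟨0, by simp [h]⟩
    · obtain ⟨c, hc, h⟩ := (MvPolynomial.isUnit_iff_eq_C_of_isReduced).1 h
      exact ⟨c, h⟩

end Pool.Agent.H71
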