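import Mathlib
import Pool.Agent.H71.InfDef
import Pool.Agent.H71.FinCase

set_option autoImplicit false

noncomputable section

namespace Pool.Agent.H71

open MvPolynomial FirstOrder FirstOrder.Ring

attribute [local instance] compatibleRingOfRing

section general
variable {H : Type} [CommRing H] {K : Type} {k : K → H} {α : Type}

theorem FDef.prime {s : (α → H) → H} (hs : TDef k s) : FDef k (fun v => Prime (s v)) := by
  have : FDef k (fun v => s v ≠ 0 ∧ ¬ IsUnit (s v) ∧ ∀ a b, s v ∣ a * b → s v ∣ a ∨ s v ∣ b) := by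
    refine FDef.and (FDef.not (FDef.eq hs TDef.zero)) (FDef.and (FDef.not (FDef.isUnit hs)) ?_)
    refine FDef.all (FDef.all ?_)
    exact FDef.imp (FDef.dvd hs.inl.inl ((TDef.var _).mul (TDef.var _)))
      (FDef.or (FDef.dvd hs.inl.inl (TDef.var _)) (FDef.dvd hs.inl.inl (TDef.var _)))
  exact this

theorem FDef.pw {s t : (α → H) → H} (hs : TDef k s) (ht : TDef k t) :
    FDef k (fun v => PW (s v) (t v)) := by
  refine FDef.and (FDef.not (FDef.eq ht TDef.zero)) (FDef.and
    (FDef.dvd (hs.sub TDef.one) (ht.sub TDef.one)) ?_)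
  refine FDef.all (FDef.imp (FDef.dvd (TDef.var _) ht.inl) ?_)
  exact FDef.or (FDef.isUnit (TDef.var _)) (FDef.dvd hs.inl (TDef.var _))

theorem FDef.baseF {s t : (α → H) → H} (hs : TDef k s) (ht : TDef k t) :
    FDef k (fun v => BaseF (s v) (t v)) := by
  refine FDef.and (FDef.and (FDef.prime hs) (FDef.prime ht)) (FDef.and (FDef.and ?_ ?_) ?_)
  · exact FDef.not (FDef.isUnit (hs.sub TDef.one))
  · exact FDef.not (FDef.isUnit (ht.sub TDef.one))
  · refine FDef.all (FDef.all (FDef.all ?_))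
    refine FDef.imp (FDef.pw hs.inl.inl.inl (TDef.var _)) ?_
    refine FDef.imp (FDef.pw hs.inl.inl.inl (TDef.var _)) ?_
    refine FDef.imp (FDef.pw hs.inl.inl.inl (TDef.var _)) ?_
    refine FDef.imp (FDef.dvd ((TDef.var _).sub ht.inl.inl.inl) ((TDef.var _).sub (TDef.var _))) ?_
    exact FDef.eq (TDef.var _) (TDef.var _)

theorem FDef.ee {a b y h g : (α → H) → H} (ha : TDef k a) (hb : TDef k b) (hy : TDef k y)
    (hh : TDef k h) (hg : TDef k g) :
    FDef k (fun v => EE (a v) (b v) (y v) (h v) (g v)) := by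
  refine FDef.all (FDef.all ?_)
  refine FDef.imp (FDef.pw ha.inl.inl (TDef.var _)) ?_
  refine FDef.imp (FDef.pw ha.inl.inl (TDef.var _)) ?_
  refine FDef.imp (FDef.dvd ((TDef.var _).sub hb.inl.inl) ((TDef.var _).sub hy.inl.inl)) ?_
  exact FDef.dvd (hh.inl.inl.sub (TDef.var _)) (hg.inl.inl.sub (TDef.var _))

end general

variable {P : Type} [Field P] {σ : Type} {K : Type} {k : K → MvPolynomial σ P} {α : Type}

theorem FDef.jj {a b y : (α → MvPolynomial σ P) → MvPolynomial σ P}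
    (ha : TDef k a) (hb : TDef k b) (hy : TDef k y) :
    FDef k (fun v => JJ (a v) (b v) (y v)) := by
  refine FDef.and (FDef.pw hb hy) (FDef.and ?_ ?_)
  · refine FDef.all (FDef.all (FDef.all (FDef.all ?_)))
    refine FDef.imp (FDef.ee ha.inl.inl.inl.inl hb.inl.inl.inl.inl hy.inl.inl.inl.inl
      (TDef.var _) (TDef.var _)) ?_
    refine FDef.imp (FDef.ee ha.inl.inl.inl.inl hb.inl.inl.inl.inl hy.inl.inl.inl.inl
      (TDef.var _) (TDef.var _)) ?_
    exact (FDef.ee ha.inl.inl.inl.inl hb.inl.inl.inl.inl hy.inl.inl.inl.inl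
      ((TDef.var _).add (TDef.var _)) ((TDef.var _).add (TDef.var _)))
  · refine FDef.all (FDef.imp (FDef.isC (TDef.var _)) ?_)
    exact FDef.ee ha.inl hb.inl hy.inl (TDef.var _) (TDef.var _)

theorem FDef.rr [Fintype σ] (i₀ i₁ : σ) {z w : σ → (α → MvPolynomial σ P) → MvPolynomial σ P}
    {h h' : (α → MvPolynomial σ P) → MvPolynomial σ P} (hz : ∀ i, TDef k (z i))
    (hw : ∀ i, TDef k (w i)) (hh : TDef k h) (hh' : TDef k h') :
    FDef k (fun v => RR i₀ i₁ (fun i => z i v) (fun i => w i v) (h v) (h' v)) := by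
  refine FDef.all (FDef.imp (FDef.jj (hz _).inl (hz _).inl (TDef.var _)) ?_)
  refine FDef.ex (FDef.exs ?_)
  refine FDef.and (FDef.ee (hz _).inl.inl.inl (hz _).inl.inl.inl (TDef.var _) hh.inl.inl.inl
    (TDef.var _)) (FDef.and ?_ ?_)
  · refine FDef.fall fun i => ?_
    exact FDef.ee (hz _).inl.inl.inl (hz _).inl.inl.inl (TDef.var _) (hz i).inl.inl.inl
      (TDef.var (Sum.inr i))
  · exact FDef.memDI (fun i => (hw i).inl.inl.inl) (fun i => TDef.var (Sum.inr i))
      (hh'.inl.inl.inl.sub (TDef.var _))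

theorem genFin_def [Fintype σ] (i₀ i₁ : σ) :
    FDef k (fun z : σ → MvPolynomial σ P => GenFin i₀ i₁ z) := by
  refine FDef.and (FDef.baseF (TDef.var _) (TDef.var _)) ?_
  refine FDef.alls (FDef.and ?_ ?_)
  · refine FDef.all (FDef.imp ?_ (FDef.eq (TDef.var _) TDef.zero))
    exact FDef.rr i₀ i₁ (fun i => TDef.var (Sum.inl (Sum.inl i)))
      (fun i => TDef.var (Sum.inl (Sum.inr i))) TDef.zero (TDef.var _)
  · refine FDef.all (FDef.ex ?_)
    exact FDef.rr i₀ i₁ (fun i => TDef.var (Sum.inl (Sum.inl (Sum.inl i))))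
      (fun i => TDef.var (Sum.inl (Sum.inl (Sum.inr i)))) (TDef.var _) (TDef.var _)

end Pool.Agent.H71
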